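import Pool.Agent.K3h86.LP.Stm

set_option autoImplicit false

namespace Pool.Agent.K3h17.LP

open Finset Nat Chebyshev Pool.Agent.K3h86.LP

/-- at most `K/m+1` of the `k ≤ K` have `m ∣ 2kp+1`, if `m` is coprime to `2p` -/
theorem cnt (p K m : ℕ) (hc : m.Coprime (2 * p)) :
    ((Icc 1 K).filter (fun k => m ∣ 2 * k * p + 1)).card ≤ K / m + 1 := by
  rw [← card_range (K / m + 1)]
  refine card_le_card_of_injOn (fun k => k / m) ?_ ?_
  · intro k hk
    simp only [coe_filter, Set.mem_ofPred_eq, mem_Icc] at hk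
    simp only [coe_range, Set.mem_Iio]
    exact Nat.lt_succ_of_le (Nat.div_le_div_right hk.1.2)
  · intro k hk k' hk' h
    simp only [coe_filter, Set.mem_ofPred_eq, mem_Icc] at hk hk'
    simp only at h
    have h1 : 2 * k * p + 1 ≡ 2 * k' * p + 1 [MOD m] :=
      ((Nat.modEq_zero_iff_dvd.2 hk.2).trans (Nat.modEq_zero_iff_dvd.2 hk'.2).symm)
    have h2 : 2 * k * p ≡ 2 * k' * p [MOD m] := Nat.ModEq.add_right_cancel' 1 h1
    have h3 : (2 * p) * k ≡ (2 * p) * k' [MOD m] := by
      have e1 : 2 * k * p = (2 * p) * k := by ring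
      have e2 : 2 * k' * p = (2 * p) * k' := by ring
      rwa [e1, e2] at h2
    have h4 : k ≡ k' [MOD m] := Nat.ModEq.cancel_left_of_coprime (by simpa using hc) h3
    have h5 : k % m = k' % m := h4
    rw [← Nat.div_add_mod k m, ← Nat.div_add_mod k' m, h, h5]

/-- Legendre: the sum of the valuations -/
theorem vals (p l : ℕ) (hp : 3 ≤ p) (hl : l.Prime) :
    ∑ k ∈ Icc 1 (2 * p - 1), (2 * k * p + 1).factorization l ≤
      ((2 * p - 1)!).factorization l + Nat.log l ((2 * p) ^ 2) := by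
  by_cases hd : l ∣ 2 * p
  · have : ∀ k ∈ Icc 1 (2 * p - 1), (2 * k * p + 1).factorization l = 0 := by
      intro k _
      apply Nat.factorization_eq_zero_of_not_dvd
      intro h
      have h1 : l ∣ 2 * k * p := (hd.mul_left k).trans (by
        have : k * (2 * p) = 2 * k * p := by ring
        rw [this])
      have h2 : l ∣ 1 := (Nat.dvd_add_right h1).1 h
      exact hl.one_lt.ne' (Nat.dvd_one.1 h2)
    rw [sum_congr rfl this]
    simp
  · have hc : l.Coprime (2 * p) := (Nat.Prime.coprime_iff_not_dvd hl).2 hd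
    set b : ℕ := Nat.log l ((2 * p) ^ 2) + 1 with hb
    have hK : Nat.log l (2 * p - 1) < b := by
      have : Nat.log l (2 * p - 1) ≤ Nat.log l ((2 * p) ^ 2) := Nat.log_mono_right (by
        have : 2 * p ≤ (2 * p) ^ 2 := Nat.le_self_pow (by norm_num) _
        omega)
      omega
    have h1 : ∀ k ∈ Icc 1 (2 * p - 1), (2 * k * p + 1).factorization l =
        ((Ico 1 b).filter (fun i => l ^ i ∣ 2 * k * p + 1)).card := by
      intro k hk
      have hk' := mem_Icc.1 hk
      have hlt : 2 * k * p + 1 ≤ (2 * p) ^ 2 := by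
        have h3 : k + 1 ≤ 2 * p := by omega
        have h4 : (k + 1) * (2 * p) ≤ (2 * p) * (2 * p) := Nat.mul_le_mul_right _ h3
        nlinarith
      have h2 : (2 * p) ^ 2 < l ^ b := Nat.lt_pow_succ_log_self hl.one_lt _
      exact Nat.factorization_eq_card_pow_dvd_of_lt hl (by omega) (by omega)
    rw [sum_congr rfl h1]
    have h2 : ∑ k ∈ Icc 1 (2 * p - 1), ((Ico 1 b).filter (fun i => l ^ i ∣ 2 * k * p + 1)).card =
        ∑ i ∈ Ico 1 b, ((Icc 1 (2 * p - 1)).filter (fun k => l ^ i ∣ 2 * k * p + 1)).card := by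
      simp_rw [card_filter]
      exact sum_comm
    rw [h2, Nat.factorization_factorial hl hK]
    calc ∑ i ∈ Ico 1 b, ((Icc 1 (2 * p - 1)).filter (fun k => l ^ i ∣ 2 * k * p + 1)).card
        ≤ ∑ i ∈ Ico 1 b, ((2 * p - 1) / l ^ i + 1) := by
          refine sum_le_sum fun i _ => cnt p _ _ (Nat.Coprime.pow_left _ hc)
      _ = ∑ i ∈ Ico 1 b, (2 * p - 1) / l ^ i + Nat.log l ((2 * p) ^ 2) := by
          rw [sum_add_distrib]
          simp [hb]

/-- the logarithm of one value -/
theorem one (p k : ℕ) (hp : 3 ≤ p) (hk : k ≤ 2 * p - 1) :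
    Real.log ((2 * k * p + 1 : ℕ) : ℝ) ≤
      ∑ l ∈ (2 * k * p + 1).primeFactors.filter (fun l => 2 * p < l), Real.log l +
        ∑ l ∈ primesLE (2 * p), ((2 * k * p + 1).factorization l : ℝ) * Real.log l := by
  set N := 2 * k * p + 1 with hN
  have hlt : N < (2 * p + 1) ^ 2 := by
    have h3 : k + 1 ≤ 2 * p := by omega
    have h4 : (k + 1) * (2 * p) ≤ (2 * p) * (2 * p) := Nat.mul_le_mul_right _ h3
    nlinarith
  have hN0 : N ≠ 0 := by omega
  rw [Real.log_nat_eq_sum_factorization]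
  have h0 : (N.factorization.sum fun p t => (t : ℝ) * Real.log p) =
      ∑ l ∈ N.primeFactors, (N.factorization l : ℝ) * Real.log l := rfl
  rw [h0, ← sum_filter_add_sum_filter_not N.primeFactors (fun l => 2 * p < l)]
  refine add_le_add ?_ ?_
  · refine sum_le_sum fun l hl => ?_
    simp only [mem_filter, Nat.mem_primeFactors] at hl
    have hl0 : (0 : ℝ) ≤ Real.log l := Real.log_natCast_nonneg l
    have h1 : N.factorization l ≤ 1 := by
      by_contra hcon
      push Not at hcon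
      have h2 : l ^ 2 ∣ N := (Nat.Prime.pow_dvd_iff_le_factorization hl.1.1 hN0).2 hcon
      have h3 : l ^ 2 ≤ N := Nat.le_of_dvd (Nat.pos_of_ne_zero hN0) h2
      have h4 : (2 * p + 1) ^ 2 ≤ l ^ 2 := Nat.pow_le_pow_left hl.2 2
      omega
    have h2 : (N.factorization l : ℝ) ≤ 1 := by exact_mod_cast h1
    nlinarith
  · refine sum_le_sum_of_subset_of_nonneg ?_ ?_
    · intro l hl
      simp only [mem_filter, Nat.mem_primeFactors, not_lt] at hl
      rw [Nat.mem_primesLE]
      exact ⟨hl.2, hl.1.1⟩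
    · intro l _ _
      exact mul_nonneg (Nat.cast_nonneg _) (Real.log_natCast_nonneg l)

theorem upper (p : ℕ) (hp : 3 ≤ p) :
    ∑ k ∈ KK p, Real.log ((2 * k * p + 1 : ℕ) : ℝ) ≤
      ∑ k ∈ KK p, ∑ l ∈ (2 * k * p + 1).primeFactors.filter (fun l => 2 * p < l), Real.log l +
        (Real.log ((2 * p - 1)! : ℕ) + 3 * ψ (2 * p : ℕ)) := by
  have h1 : ∑ k ∈ KK p, Real.log ((2 * k * p + 1 : ℕ) : ℝ) ≤
      ∑ k ∈ KK p, (∑ l ∈ (2 * k * p + 1).primeFactors.filter (fun l => 2 * p < l), Real.log l +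
        ∑ l ∈ primesLE (2 * p), ((2 * k * p + 1).factorization l : ℝ) * Real.log l) := by
    refine sum_le_sum fun k hk => ?_
    simp only [KK, mem_erase, mem_Icc] at hk
    exact one p k hp hk.2.2
  refine h1.trans ?_
  rw [sum_add_distrib]
  refine add_le_add le_rfl ?_
  rw [sum_comm]
  have h2 : ∀ l ∈ primesLE (2 * p), ∑ k ∈ KK p, ((2 * k * p + 1).factorization l : ℝ) * Real.log l ≤
      (((2 * p - 1)!).factorization l : ℝ) * Real.log l + 3 * ((Nat.log l (2 * p) : ℝ) * Real.log l) := by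
    intro l hl
    rw [Nat.mem_primesLE] at hl
    have hl0 : (0 : ℝ) ≤ Real.log l := Real.log_natCast_nonneg l
    rw [← sum_mul, ← mul_assoc, ← add_mul]
    refine mul_le_mul_of_nonneg_right ?_ hl0
    have h3 : ∑ k ∈ KK p, (2 * k * p + 1).factorization l ≤
        ∑ k ∈ Icc 1 (2 * p - 1), (2 * k * p + 1).factorization l :=
      sum_le_sum_of_subset (erase_subset _ _)
    have h4 := vals p l hp hl.2
    have h5 : Nat.log l ((2 * p) ^ 2) ≤ 3 * Nat.log l (2 * p) := by
      have h6 : 2 * p < l ^ (Nat.log l (2 * p) + 1) := Nat.lt_pow_succ_log_self hl.2.one_lt _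
      have h7 : (2 * p) ^ 2 < l ^ ((Nat.log l (2 * p) + 1) * 2) := by
        rw [pow_mul]
        exact Nat.pow_lt_pow_left h6 (by norm_num)
      have h8 : Nat.log l ((2 * p) ^ 2) < (Nat.log l (2 * p) + 1) * 2 :=
        Nat.log_lt_of_lt_pow (by positivity) h7
      have h9 : 1 ≤ Nat.log l (2 * p) := Nat.log_pos hl.2.one_lt hl.1
      omega
    have h6 : ∑ k ∈ KK p, (2 * k * p + 1).factorization l ≤
        ((2 * p - 1)!).factorization l + 3 * Nat.log l (2 * p) := by omega
    exact_mod_cast h6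
  refine (sum_le_sum h2).trans ?_
  rw [sum_add_distrib, ← mul_sum, ← psi_eq_sum_mul_log_prime]
  refine add_le_add ?_ le_rfl
  rw [Real.log_nat_eq_sum_factorization]
  have h0 : (((2 * p - 1)!).factorization.sum fun p t => (t : ℝ) * Real.log p) =
      ∑ l ∈ ((2 * p - 1)!).primeFactors, (((2 * p - 1)!).factorization l : ℝ) * Real.log l := rfl
  rw [h0]
  refine le_of_eq ?_
  symm
  refine sum_subset ?_ ?_
  · intro l hl
    rw [Nat.mem_primeFactors] at hl
    rw [Nat.mem_primesLE]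
    have := (hl.1.dvd_factorial).1 hl.2.1
    exact ⟨by omega, hl.1⟩
  · intro l _ hl
    rw [← Nat.support_factorization, Finsupp.notMem_support_iff] at hl
    rw [hl]
    simp

theorem lfact (n : ℕ) : Real.log (n ! : ℕ) = ∑ k ∈ Icc 1 n, Real.log k := by
  induction n with
  | zero => simp
  | succ n ih =>
    rw [Nat.factorial_succ, Nat.cast_mul, Real.log_mul (by positivity) (by positivity), ih,
      ← Finset.insert_Icc_right_eq_Icc_add_one (by omega), sum_insert (by simp)]

theorem lower (p : ℕ) (hp : 3 ≤ p) :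
    (2 * (p : ℝ) - 1) * Real.log (2 * p) + Real.log ((2 * p - 1)! : ℕ) - Real.log (2 * p * p) ≤
      ∑ k ∈ KK p, Real.log ((2 * k * p + 1 : ℕ) : ℝ) := by
  have hp0 : (0 : ℝ) < p := by exact_mod_cast (by omega : 0 < p)
  have h1 : ∑ k ∈ KK p, Real.log (2 * p * k) ≤ ∑ k ∈ KK p, Real.log ((2 * k * p + 1 : ℕ) : ℝ) := by
    refine sum_le_sum fun k hk => ?_
    simp only [KK, mem_erase, mem_Icc] at hk
    have hk0 : (0 : ℝ) < k := by exact_mod_cast (by omega : 0 < k)
    refine Real.log_le_log (by positivity) ?_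
    push_cast
    nlinarith
  refine le_trans ?_ h1
  have hmem : p ∈ Icc 1 (2 * p - 1) := by
    rw [mem_Icc]
    omega
  have h2 : ∑ k ∈ Icc 1 (2 * p - 1), Real.log (2 * p * k) =
      Real.log (2 * p * p) + ∑ k ∈ KK p, Real.log (2 * p * k) := by
    unfold KK
    rw [add_sum_erase _ (fun k : ℕ => Real.log (2 * p * k)) hmem]
  have h3 : ∑ k ∈ Icc 1 (2 * p - 1), Real.log (2 * p * k) =
      (2 * (p : ℝ) - 1) * Real.log (2 * p) + Real.log ((2 * p - 1)! : ℕ) := by
    have h4 : ∑ k ∈ Icc 1 (2 * p - 1), Real.log (2 * p * k) =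
        ∑ k ∈ Icc 1 (2 * p - 1), (Real.log (2 * p) + Real.log k) := by
      refine sum_congr rfl fun k hk => ?_
      rw [mem_Icc] at hk
      have hk0 : (0 : ℝ) < k := by exact_mod_cast (by omega : 0 < k)
      rw [Real.log_mul (by positivity) hk0.ne']
    rw [h4, sum_add_distrib, sum_const, Nat.card_Icc, nsmul_eq_mul]
    congr 1
    · have : ((2 * p - 1 + 1 - 1 : ℕ) : ℝ) = 2 * (p : ℝ) - 1 := by
        have h5 : 2 * p - 1 + 1 - 1 = 2 * p - 1 := by omega
        rw [h5, Nat.cast_sub (by omega)]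
        push_cast
        ring
      rw [this]
    · exact (lfact _).symm
  linarith

theorem t_CHEB : CHEB := by
  refine ⟨6 * (Real.log 4 + 4) + 5, by have := Real.log_pos (by norm_num : (1 : ℝ) < 4); positivity, ?_⟩
  intro p _ hp
  have h1 := upper p hp
  have h2 := lower p hp
  have hp0 : (0 : ℝ) < p := by exact_mod_cast (by omega : 0 < p)
  have hp3 : (3 : ℝ) ≤ p := by exact_mod_cast hp
  have h3 : ψ (2 * p : ℕ) ≤ (Real.log 4 + 4) * (2 * p : ℕ) := psi_le_const_mul_self (Nat.cast_nonneg _)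
  push_cast at h3
  have h4 : Real.log (2 * p) = Real.log 2 + Real.log p := Real.log_mul (by norm_num) hp0.ne'
  have h5 : Real.log (2 * p * p) = Real.log 2 + Real.log p + Real.log p := by
    rw [Real.log_mul (by positivity) hp0.ne', h4]
  have h6 : Real.log p ≤ p - 1 := Real.log_le_sub_one_of_pos hp0
  have h7 : Real.log 2 ≤ 1 := by
    have := Real.log_le_sub_one_of_pos (by norm_num : (0 : ℝ) < 2)
    linarith
  have h8 : 0 < Real.log 2 := Real.log_pos (by norm_num)
  push_cast at h1 h2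
  rw [h4, h5] at h2
  nlinarith [mul_pos hp0 h8]

end Pool.Agent.K3h17.LP
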